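import Mathlib
import Pool.Agent.H24.BallDefs
import Pool.Agent.H24.BallC

set_option autoImplicit false

namespace Pool.Agent.Results.MP_fed0c4_co.Superlinear

open Pool.Agent.H24.BallDefs

theorem result : ∃ d : ℕ, 1 ≤ d ∧ ∀ C : ℕ, ∃ R : ℕ, 1 ≤ R ∧ ∀ r : ℕ, R ≤ r →
    ∃ (V : Type) (G : SimpleGraph V) (o : V),
      Realizable G o r ∧ rootDegree G o r = d ∧ ((C * r : ℕ) : ℕ∞) < minDiam G o r :=
  ⟨13, by norm_num, Pool.Agent.H24.BallC.final⟩

end Pool.Agent.Results.MP_fed0c4_co.Superlinear
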